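import Pool.Agent.Helper342.RV.L6

/-!
# The Reuleaux triangle does not maximise the rendezvous constant in the plane
-/

namespace Pool.Agent.Results.MP_69e6d0_co.CutReuleaux

open Set Metric

section defs

variable {X : Type*} [PseudoMetricSpace X]

/-- The rendezvous number `a(E)`: the supremum over `n ≥ 1` and points `x_1, …, x_n ∈ E`
(not necessarily distinct) of `min_{y ∈ E} (1/n) ∑ i, |x_i - y|`. -/
noncomputable def rendezvous (E : Set X) : ℝ :=
  sSup {r : ℝ | ∃ (n : ℕ) (x : Fin n → X), 1 ≤ n ∧ (∀ i, x i ∈ E) ∧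
    IsLeast {s : ℝ | ∃ y ∈ E, s = (1 / (n : ℝ)) * ∑ i, dist (x i) y} r}

/-- The rendezvous constant `r(E) = a(E) / diam(E)`. -/
noncomputable def rendezvousConstant (E : Set X) : ℝ := rendezvous E / Metric.diam E

/-- The Reuleaux triangle with vertices `v 0, v 1, v 2` and width `s`: the intersection of the three
closed discs of radius `s` centred at the vertices. -/
def reuleaux (s : ℝ) (v : Fin 3 → X) : Set X := ⋂ i, Metric.closedBall (v i) s

end defs

/-! ### Scaling -/

theorem rendezvous_dilate {X Y : Type*} [PseudoMetricSpace X] [PseudoMetricSpace Y] {f : X → Y}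
    {s : ℝ} (hs : 0 < s) (hf : ∀ x y, dist (f x) (f y) = s * dist x y) (E : Set X) :
    rendezvous (f '' E) = s * rendezvous E := by
  unfold rendezvous
  rw [← smul_eq_mul, ← Real.sSup_smul_of_nonneg hs.le]
  congr 1
  have key : ∀ (n : ℕ) (x : Fin n → X) (y : X),
      (1 / (n : ℝ)) * ∑ i, dist (f (x i)) (f y) = s * ((1 / (n : ℝ)) * ∑ i, dist (x i) y) := by
    intro n x y
    simp only [hf, ← Finset.mul_sum]
    ring
  ext r
  rw [Set.mem_smul_set]
  constructor
  · rintro ⟨n, x, hn, hx, ⟨w, hw, hr⟩, hlb⟩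
    choose x' hx' hxx' using hx
    obtain rfl : (fun i => f (x' i)) = x := funext hxx'
    obtain ⟨y, hy, rfl⟩ := hw
    refine ⟨(1 / (n : ℝ)) * ∑ i, dist (x' i) y, ⟨n, x', hn, hx', ⟨y, hy, rfl⟩, ?_⟩, ?_⟩
    · rintro t ⟨y', hy', rfl⟩
      have h := hlb ⟨f y', ⟨y', hy', rfl⟩, rfl⟩
      rw [hr, key, key] at h
      exact le_of_mul_le_mul_left h hs
    · rw [hr, key, smul_eq_mul]
  · rintro ⟨r', ⟨n, x, hn, hx, ⟨y, hy, rfl⟩, hlb⟩, rfl⟩
    refine ⟨n, fun i => f (x i), hn, fun i => ⟨x i, hx i, rfl⟩, ⟨f y, ⟨y, hy, rfl⟩, ?_⟩, ?_⟩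
    · rw [key, smul_eq_mul]
    · rintro t ⟨_, ⟨y', hy', rfl⟩, rfl⟩
      rw [key, smul_eq_mul]
      exact mul_le_mul_of_nonneg_left (hlb ⟨y', hy', rfl⟩) hs.le

theorem diam_dilate {X Y : Type*} [PseudoMetricSpace X] [PseudoMetricSpace Y] {f : X → Y}
    {s : ℝ} (hs : 0 < s) (hf : ∀ x y, dist (f x) (f y) = s * dist x y) {E : Set X}
    (hE : Bornology.IsBounded E) : Metric.diam (f '' E) = s * Metric.diam E := by
  apply le_antisymm
  · apply Metric.diam_le_of_forall_dist_le (mul_nonneg hs.le Metric.diam_nonneg)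
    rintro _ ⟨x, hx, rfl⟩ _ ⟨y, hy, rfl⟩
    rw [hf]
    exact mul_le_mul_of_nonneg_left (Metric.dist_le_diam_of_mem hE hx hy) hs.le
  · have hb : Bornology.IsBounded (f '' E) := by
      rw [Metric.isBounded_iff]
      obtain ⟨C, hC⟩ := Metric.isBounded_iff.1 hE
      refine ⟨s * C, ?_⟩
      rintro _ ⟨x, hx, rfl⟩ _ ⟨y, hy, rfl⟩
      rw [hf]
      exact mul_le_mul_of_nonneg_left (hC hx hy) hs.le
    have h : Metric.diam E ≤ s⁻¹ * Metric.diam (f '' E) := by
      apply Metric.diam_le_of_forall_dist_le (mul_nonneg (inv_nonneg.2 hs.le) Metric.diam_nonneg)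
      intro x hx y hy
      have h1 := Metric.dist_le_diam_of_mem hb (mem_image_of_mem f hx) (mem_image_of_mem f hy)
      rw [hf] at h1
      rw [← inv_mul_cancel_left₀ hs.ne' (dist x y)]
      exact mul_le_mul_of_nonneg_left h1 (inv_nonneg.2 hs.le)
    calc s * Metric.diam E ≤ s * (s⁻¹ * Metric.diam (f '' E)) := mul_le_mul_of_nonneg_left h hs.le
      _ = Metric.diam (f '' E) := mul_inv_cancel_left₀ hs.ne' _

theorem constant_dilate {X Y : Type*} [PseudoMetricSpace X] [PseudoMetricSpace Y] {f : X → Y}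
    {s : ℝ} (hs : 0 < s) (hf : ∀ x y, dist (f x) (f y) = s * dist x y) {E : Set X}
    (hE : Bornology.IsBounded E) : rendezvousConstant (f '' E) = rendezvousConstant E := by
  unfold rendezvousConstant
  rw [rendezvous_dilate hs hf, diam_dilate hs hf hE, mul_div_mul_left _ _ hs.ne']

/-- **Disproof of `R_2 = r(T)`.** There is a compact connected planar set `E` with more than one
point such that `r(E) > r(T)` for every Reuleaux triangle `T`; the same `E` also beats the boundary
curve of every Reuleaux triangle. -/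
theorem result : ∃ E : Set (EuclideanSpace ℝ (Fin 2)),
    IsCompact E ∧ IsConnected E ∧ E.Nontrivial ∧
    ∀ (s : ℝ) (v : Fin 3 → EuclideanSpace ℝ (Fin 2)), 0 < s →
      (∀ i j, i ≠ j → dist (v i) (v j) = s) →
      rendezvousConstant (reuleaux s v) < rendezvousConstant E ∧
      rendezvousConstant (frontier (reuleaux s v)) < rendezvousConstant E := by
  obtain ⟨E, hc, hconn, hnt, h1, h2⟩ := Helper342.RV.main_C2
  let L : ℂ ≃ₗᵢ[ℝ] EuclideanSpace ℝ (Fin 2) := Complex.orthonormalBasisOneI.repr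
  have hL : ∀ x y, dist (L x) (L y) = 1 * dist x y := fun x y => by rw [L.dist_map, one_mul]
  refine ⟨L '' E, hc.image L.continuous, hconn.image _ L.continuous.continuousOn,
    hnt.image L.injective, ?_⟩
  intro s v hs hv
  rw [constant_dilate one_pos hL hc.isBounded]
  -- the unit triangle
  have hv' : ∀ i j, i ≠ j → dist (s⁻¹ • v i) (s⁻¹ • v j) = 1 := by
    intro i j hij
    rw [dist_smul₀, hv i j hij, Real.norm_of_nonneg (inv_nonneg.2 hs.le), inv_mul_cancel₀ hs.ne']
  obtain ⟨f, f0, f1, f2⟩ := Helper342.Reul.exists_iso (fun i => s⁻¹ • v i) hv'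
  -- the similarity
  let g : EuclideanSpace ℝ (Fin 2) ≃ₜ EuclideanSpace ℝ (Fin 2) := Homeomorph.smulOfNeZero s hs.ne'
  have hg : ∀ x, g x = s • x := fun x => rfl
  let F : ℂ ≃ₜ EuclideanSpace ℝ (Fin 2) := f.toHomeomorph.trans g
  have hF : ∀ z, F z = s • f z := fun z => rfl
  have hFd : ∀ x y, dist (F x) (F y) = s * dist x y := by
    intro x y
    rw [hF, hF, dist_smul₀, f.dist_eq, Real.norm_of_nonneg hs.le]
  have hv0 : ∀ i, v i = s • (s⁻¹ • v i) := fun i => by
    rw [smul_smul, mul_inv_cancel₀ hs.ne', one_smul]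
  have hF0 : F 0 = v 0 := by rw [hF, f0, ← hv0]
  have hF1 : F 1 = v 1 := by rw [hF, f1, ← hv0]
  have hF2 : F Helper342.Reul.ζ = v 2 := by rw [hF, f2, ← hv0]
  have hT : reuleaux s v = F '' Helper342.Reul.TT := by
    ext x
    obtain ⟨z, rfl⟩ := F.surjective x
    rw [F.injective.mem_set_image]
    simp only [reuleaux, mem_iInter, mem_closedBall]
    rw [Fin.forall_fin_succ, Fin.forall_fin_two]
    simp only [Fin.succ_zero_eq_one, Fin.succ_one_eq_two]
    rw [← hF0, ← hF1, ← hF2, hFd, hFd, hFd, dist_zero_right, dist_eq_norm, dist_eq_norm]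
    have hle : ∀ t : ℝ, s * t ≤ s ↔ t ≤ 1 := fun t => by
      constructor
      · intro h
        exact le_of_mul_le_mul_left (by linarith) hs
      · intro h
        nlinarith
    rw [hle, hle, hle]
    rfl
  have hfr : frontier (F '' Helper342.Reul.TT) = F '' frontier Helper342.Reul.TT :=
    (F.image_frontier _).symm
  have hTc : Bornology.IsBounded Helper342.Reul.TT := Helper342.Reul.TT_compact.isBounded
  have hTf : Bornology.IsBounded (frontier Helper342.Reul.TT) :=
    hTc.subset Helper342.Reul.TT_compact.isClosed.frontier_subset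
  rw [hT, hfr, constant_dilate hs hFd hTc, constant_dilate hs hFd hTf]
  exact ⟨h1, h2⟩

end Pool.Agent.Results.MP_69e6d0_co.CutReuleaux
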